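import Pool.Agent.W353.PV.Sys
import Pool.Agent.W353.AB.Govern

/-! One finite extension governs the orders over number fields. -/

set_option autoImplicit false

namespace Pool.Agent.W353.PV

open Complex Filter Topology NumberField IsDedekindDomain
open Pool.Agent.W353.TP (Om inum)
open Pool.Agent.W353.AB (Sy Bd Rel prA govern)
open scoped TensorProduct

theorem card_max_of_inj {k R S : Type} [Field k] [CommRing R] [CommRing S] [Algebra k R]
    [Algebra k S] [Algebra.IsIntegral k S] [Finite (MaximalSpectrum S)] (φ : R →ₐ[k] S)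
    (hinj : Function.Injective φ) :
    Nat.card (MaximalSpectrum R) ≤ Nat.card (MaximalSpectrum S) := by
  classical
  have hfin : φ.toRingHom.IsIntegral := by
    have h1 : (algebraMap k S).IsIntegral := fun x => Algebra.IsIntegral.isIntegral x
    have h2 : φ.toRingHom.comp (algebraMap k R) = algebraMap k S := φ.comp_algebraMap
    rw [← h2] at h1
    exact RingHom.IsIntegral.tower_top _ _ h1
  have hex : ∀ m₀ : MaximalSpectrum R, ∃ m : MaximalSpectrum S,
      m.asIdeal.comap φ.toRingHom = m₀.asIdeal := by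
    intro m₀
    letI : Algebra R S := φ.toRingHom.toAlgebra
    have : Algebra.IsIntegral R S := ⟨hfin⟩
    have hm : m₀.asIdeal.IsMaximal := m₀.isMaximal
    obtain ⟨Q, hQ, e⟩ := Ideal.exists_ideal_over_maximal_of_isIntegral (S := S)
      m₀.asIdeal (by
        have : RingHom.ker (algebraMap R S) = ⊥ := (RingHom.injective_iff_ker_eq_bot _).1 hinj
        rw [this]
        exact bot_le)
    exact ⟨⟨Q, hQ⟩, e⟩
  choose g hg using hex
  refine Nat.card_le_card_of_injective g fun a b hab => ?_
  have : a.asIdeal = b.asIdeal := by rw [← hg a, ← hg b, hab]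
  exact MaximalSpectrum.ext this

section
variable {K : Type} [Field K] [NumberField K]

theorem rank_mono {F₀ F : IntermediateField K (Om K)} [NumberField F] [NumberField F₀]
    (h : F₀ ≤ F) :
    Nat.card (MaximalSpectrum (F₀ ⊗[K] F₀)) ≤ Nat.card (MaximalSpectrum (F ⊗[K] F)) := by
  classical
  have hfinM : Finite (MaximalSpectrum (F ⊗[K] F)) := inferInstance
  refine card_max_of_inj (Algebra.TensorProduct.map (IntermediateField.inclusion h)
    (IntermediateField.inclusion h)) ?_
  have hι : Function.Injective (IntermediateField.inclusion h).toLinearMap :=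
    IntermediateField.inclusion_injective h
  exact TensorProduct.map_injective_of_flat_flat _ _ hι hι

variable {n : ℕ}

/-- **One finite extension governs.** -/
theorem gov (X : Set (MvPolynomial (Fin n) (𝓞 K))) (d i N c m : ℕ)
    (P : ∀ (F : IntermediateField K (Om K)) [NumberField F], Prop)
    (hP : ∀ (F : IntermediateField K (Om K)) [NumberField F], P F →
      Nat.card (MaximalSpectrum (F ⊗[K] F)) ≤ c) (k : ℕ) (hk : 1 ≤ k) :
    ∃ (M : IntermediateField K (Om K)), FiniteDimensional K M ∧ IsGalois K M ∧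
      ((∀ (F : IntermediateField K (Om K)) [NumberField F], P F → Module.finrank K F ≤ m) →
          Module.finrank K M ≤ m.factorial ^ (2 * c * (k * N) ^ 2)) ∧
      (∀ (F F₀ : IntermediateField K (Om K)) [NumberField F] [NumberField F₀],
        F₀ = F ⊓ M → ∀ (e : Fin 0 → 𝓞 F) (e₀ : Fin 0 → 𝓞 F₀) (τ : ℝ) (A B : ℝ → ℝ)
        (_ : (syX X d i N).IsSize (F := F) e τ A) (_ : (syX X d i N).IsSize (F := F₀) e₀ τ B),
        P F → P F₀ →
        (∃ᶠ ε : ℝ in 𝓝[>] 0, |A ε - B ε| < 1 / k) ∧
          ∀ x y : ℝ, Tendsto A (𝓝[>] 0) (𝓝 x) → Tendsto B (𝓝[>] 0) (𝓝 y) →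
            |x - y| < 1 / k) := by
  have hinum : ∀ (F : IntermediateField K (Om K)) [NumberField F] (e : Fin 0 → 𝓞 F) (j : Unit),
      inum K F F (((syX X d i N).D e j : 𝓞 F) : F) (((syX X d i N).D e j : 𝓞 F) : F) ≤
        Nat.card (MaximalSpectrum (F ⊗[K] F)) := by
    intro F _ e j
    exact Nat.card_le_card_of_injective _ Subtype.val_injective
  obtain ⟨M, Θ, h1, h2, h3, h4, h5, h6, h7⟩ := govern (syX X d i N) c k m N hk
    (syX_b X d i N).symm (fun F _ _ => P F) (fun F _ e h j _ => (hinum F e j).trans (hP F h))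
  refine ⟨M, h1, h2, fun h => ?_, ?_⟩
  · have h8 := h5 fun F _ e hF => h F hF
    have h9 : 4 ^ (syX X d i N).r * m = m := by
      have : (syX X d i N).r = 0 := rfl
      rw [this, pow_zero, one_mul]
    rwa [h9] at h8
  · intro F F₀ _ _ hFF e e₀ τ A B hA hB hPF hPF₀
    refine h7 F F₀ hFF e e₀ (fun j => Fin.elim0 j) (fun j => Fin.elim0 j) τ A B hA hB hPF hPF₀ ?_
    intro j _
    have e1 : prA (syX X d i N) e j = 1 := by
      have : (syX X d i N).D e j = 1 := Finset.prod_empty
      unfold prA
      rw [this]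
      rfl
    have e2 : prA (syX X d i N) e₀ j = 1 := by
      have : (syX X d i N).D e₀ j = 1 := Finset.prod_empty
      unfold prA
      rw [this]
      rfl
    left
    rw [e1, e2]
    exact ⟨⟨1, one_mem _, by ring⟩, ⟨1, one_mem _, by ring⟩⟩

end

end Pool.Agent.W353.PV
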