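import Pool.Agent.W353.PV.Gov
import Pool.Agent.W353.NF.Rad
import Pool.Agent.W353.NF.EC
import Pool.Agent.W353.L1.Final

/-! Orders of the `L`-functions of a projective variety over number fields. -/

set_option autoImplicit false

namespace Pool.Agent.W353.PV

open Complex Filter Topology NumberField IsDedekindDomain Polynomial
open Pool.Agent.W353.NF (act fixn drg kap ineq1 ineq2 avR_ker ker_act_open)

/-- limits of the sizes -/
theorem lim_ord {L : ℂ → ℂ} {s₀ : ℂ} (hL : ∀ᶠ ε : ℝ in 𝓝[>] 0, L (s₀ + ε) ≠ 0)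
    {Λ : ℂ → ℂ} (h1 : MeromorphicAt Λ s₀)
    (h2 : ∀ᶠ s in 𝓝 s₀, s₀.re < s.re → Λ s = L s) {m : ℤ}
    (hm : meromorphicOrderAt Λ s₀ = m) :
    Tendsto (fun ε : ℝ => Real.log ‖L (s₀ + ε)‖ / Real.log (1 / ε)) (𝓝[>] 0)
      (𝓝 (-(m : ℝ))) := by
  obtain ⟨m', h3', h4⟩ := Pool.Agent.H126T.order_limit h1
    (fun ε : ℝ => L (s₀ + ε)) hL (by
      filter_upwards [(Pool.Agent.H341R2.path_tendsto' s₀).eventually h2,
        self_mem_nhdsWithin] with ε h1 h2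
      have hε : (0 : ℝ) < ε := h2
      exact h1 (by simp; linarith))
  rw [hm] at h3'
  have h5 : m = m' := by exact_mod_cast h3'
  subst h5
  exact h4

section
variable {K : Type} [Field K] [NumberField K] {n : ℕ} {F : Type} [Field F] [NumberField F]
  [Algebra K F] {X : Set (MvPolynomial (Fin n) (𝓞 K))} {d i N : ℕ}

/-- the sizes at the real point -/
theorem size_X0 (hi : i ≤ 2 * d) (B : HeightOneSpectrum (𝓞 F) → ℂ[X])
    (hB : ∀ᶠ v in cofinite, ∃ α : Fin N → ℂ, Eig X d i v α ∧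
      ∀ z : ℂ, (B v).eval z = ∏ j, (1 - α j * z))
    (hB0 : ∀ v, (B v).eval ((Ideal.absNorm v.asIdeal : ℂ) ^ (-((i : ℂ) / 2 + 1))) ≠ 0)
    (e : Fin 0 → 𝓞 F) :
    (∀ᶠ ε : ℝ in 𝓝[>] 0, LX B ((i : ℂ) / 2 + 1 + ε) ≠ 0) ∧
    (syX X d i N).IsSize (F := F) e 0
      (fun ε => Real.log ‖LX B ((i : ℂ) / 2 + 1 + ε)‖ / Real.log (1 / ε)) := by
  have e0 : ((((i : ℝ) / 2 : ℝ) : ℂ) + 1 + ((0 : ℝ) : ℂ) * I) = (i : ℂ) / 2 + 1 := by
    push_cast
    ring
  have h := size_X hi B hB 0 (by rw [e0]; exact hB0) e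
  rw [e0] at h
  exact h

end

end Pool.Agent.W353.PV
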