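import Pool.Agent.W353.PV.Eig
import Pool.Agent.W353.L1.Core
import Pool.Agent.W353.AB.Transfer

/-! The sizes of the `L`-functions of a projective variety over number fields. -/

set_option autoImplicit false

namespace Pool.Agent.W353.PV

open Complex Filter Topology ComplexConjugate NumberField IsDedekindDomain Asymptotics
  Pool.Agent.W401.Cheb Pool.Agent.W540.BE Pool.Agent.W353.L1 Polynomial
open Pool.Agent.W353.TP (HX sysH push push_abs_le qh qh_abs qh_eq res LL LL_tendsto E_H bdd_isLittleO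
  lam0_sub)
open Pool.Agent.W353.AB (Sy vq corr_gen)
open Pool.Agent.W353.NF (vx EP_eq)
open Pool.Agent.H921R2.TatePole (kerPrime)
open Pool.Agent.H341R2 (lam lam_tendsto sysK chi)

open Classical in
/-- a chosen list with a property -/
noncomputable def pick {N : ℕ} (P : (Fin N → ℂ) → Prop) : Fin N → ℂ :=
  if h : ∃ α, P α then h.choose else 0

theorem pick_spec {N : ℕ} {P : (Fin N → ℂ) → Prop} (h : ∃ α, P α) : P (pick P) := by
  unfold pick
  rw [dif_pos h]
  exact h.choose_spec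

section
variable {K : Type} [Field K] [NumberField K] {n : ℕ}

/-- the chosen eigenvalues -/
noncomputable def alp (X : Set (MvPolynomial (Fin n) (𝓞 K))) (d i N : ℕ) (F : Type) [Field F]
    [NumberField F] [Algebra K F] (v : HeightOneSpectrum (𝓞 F)) : Fin N → ℂ :=
  pick fun α => Eig X d i v α

/-- the normalised trace -/
noncomputable def tF (X : Set (MvPolynomial (Fin n) (𝓞 K))) (d i N : ℕ) (F : Type) [Field F]
    [NumberField F] [Algebra K F] (v : HeightOneSpectrum (𝓞 F)) : ℝ :=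
  tr ((i : ℝ) / 2) (alp X d i N F) v

/-- the system of a variety -/
noncomputable def syX (X : Set (MvPolynomial (Fin n) (𝓞 K))) (d i N : ℕ) : Sy K where
  ι := Unit
  P := {()}
  r := 0
  A _ := ∅
  T _ x := ((tF X d i N K (vx x) : ℝ) : ℂ)
  b _ := N
  hb _ _ := Nat.cast_nonneg _
  hT _ _ x := by
    rw [Complex.norm_real, Real.norm_eq_abs]
    exact abs_tr_le _ _ _

theorem syX_real (X : Set (MvPolynomial (Fin n) (𝓞 K))) (d i N : ℕ) :
    ∀ j ∈ (syX X d i N).P, ∀ x, ((syX X d i N).T j x).im = 0 :=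
  fun _ _ _ => Complex.ofReal_im _

theorem syX_b (X : Set (MvPolynomial (Fin n) (𝓞 K))) (d i N : ℕ) :
    ∑ j ∈ (syX X d i N).P, (syX X d i N).b j = N := by
  have e1 : ∑ j ∈ (syX X d i N).P, (syX X d i N).b j = ∑ _j ∈ ({()} : Finset Unit), (N : ℝ) := rfl
  rw [e1, Finset.sum_singleton]

variable {F : Type} [Field F] [NumberField F] [Algebra K F]
  {X : Set (MvPolynomial (Fin n) (𝓞 K))} {d i N : ℕ}

theorem tF_ker (p : Nat.Primes) (ψ : 𝓞 F →+* ZMod (p : ℕ)) :
    tF X d i N F (kerPrime p ψ).1.1 =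
      tF X d i N K (vx (⟨p, ψ.comp (algebraMap (𝓞 K) (𝓞 F))⟩ : HX K)) := by
  have e1 : alp X d i N F (kerPrime p ψ).1.1 =
      alp X d i N K (vx (⟨p, ψ.comp (algebraMap (𝓞 K) (𝓞 F))⟩ : HX K)) := by
    unfold alp
    congr 1
    funext α
    exact propext (Eig_ker p ψ α)
  have e2 : Pool.Agent.W540.BE.nm F (kerPrime p ψ).1.1 =
      Pool.Agent.W540.BE.nm K (vx (⟨p, ψ.comp (algebraMap (𝓞 K) (𝓞 F))⟩ : HX K)) := by
    rw [Pool.Agent.W353.NF.nm_vx]
    exact Pool.Agent.H341R2.nm_kerPrime p ψ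
  unfold tF tr
  rw [e1, e2]

theorem chi_one (v : HeightOneSpectrum (𝓞 F)) : chi (1 : 𝓞 F) v = 1 := by
  unfold chi
  rw [map_one, map_one]

/-- the Euler product -/
noncomputable def LX (B : HeightOneSpectrum (𝓞 F) → ℂ[X]) (s : ℂ) : ℂ :=
  ∏' v : HeightOneSpectrum (𝓞 F), ((B v).eval ((Ideal.absNorm v.asIdeal : ℂ) ^ (-s)))⁻¹

/-- **The sizes over `F`.** -/
theorem size_X (hi : i ≤ 2 * d) (B : HeightOneSpectrum (𝓞 F) → ℂ[X])
    (hB : ∀ᶠ v in cofinite, ∃ α : Fin N → ℂ, Eig X d i v α ∧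
      ∀ z : ℂ, (B v).eval z = ∏ j, (1 - α j * z)) (τ : ℝ)
    (hB0 : ∀ v, (B v).eval ((Ideal.absNorm v.asIdeal : ℂ) ^
      (-((((i : ℝ) / 2 : ℝ) : ℂ) + 1 + τ * I))) ≠ 0) (e : Fin 0 → 𝓞 F) :
    (∀ᶠ ε : ℝ in 𝓝[>] 0, LX B ((((i : ℝ) / 2 : ℝ) : ℂ) + 1 + τ * I + ε) ≠ 0) ∧
    (syX X d i N).IsSize (F := F) e τ
      (fun ε => Real.log ‖LX B ((((i : ℝ) / 2 : ℝ) : ℂ) + 1 + τ * I + ε)‖ /
        Real.log (1 / ε)) := by
  classical
  choose σ hσ using exists_isFrob (F := F)
  -- the chosen eigenvalues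
  have hgood : ∀ᶠ v in cofinite, Eig X d i v (alp X d i N F v) ∧
      ∀ z : ℂ, (B v).eval z = ∏ j, (1 - alp X d i N F v j * z) := by
    refine hB.mono fun v hv => ?_
    obtain ⟨α, h1, h2⟩ := hv
    have h3 : Eig X d i v (alp X d i N F v) := pick_spec ⟨α, h1⟩
    refine ⟨h3, fun z => ?_⟩
    rw [h2]
    have h4 := congrArg (fun s : Multiset ℂ => (s.map fun a => 1 - a * z).prod)
      (h1.unique' hi h3)
    simp only [Multiset.map_map] at h4
    exact h4
  have hsz := size_corr ((i : ℝ) / 2) (alp X d i N F)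
    (hgood.mono fun v hv j => hv.1.norm j) (hgood.mono fun v hv => hv.1.im hi)
    (⊤ : Subgroup (GK F)) (n := 1) (1 : Representation ℂ (GK F) (Fin 1 → ℂ)) (fun _ _ => rfl) τ B
    (hgood.mono fun v hv g _ z => by
      rw [hv.2 z]
      refine Finset.prod_congr rfl fun j _ => ?_
      have e1 : (1 : Module.End ℂ (Fin 1 → ℂ)) - (alp X d i N F v j * z) •
          ((1 : Representation ℂ (GK F) (Fin 1 → ℂ)) g⁻¹) =
          (1 - alp X d i N F v j * z) • (1 : Module.End ℂ (Fin 1 → ℂ)) := by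
        have e0 : (1 : Representation ℂ (GK F) (Fin 1 → ℂ)) g⁻¹ =
            (1 : Module.End ℂ (Fin 1 → ℂ)) := rfl
        rw [e0]
        refine LinearMap.ext fun x => ?_
        rw [LinearMap.sub_apply, LinearMap.smul_apply, LinearMap.smul_apply,
          Module.End.one_apply]
        exact (by rw [sub_smul, one_smul] : x - (alp X d i N F v j * z) • x =
          ((1 : ℂ) - alp X d i N F v j * z) • x)
      rw [e1, LinearMap.det_smul]
      simp)
    hB0 (LX B) (fun s _ => rfl) σ hσ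
  refine ⟨hsz.1, ?_⟩
  -- comparison with the sum over the primes of degree one
  set w : HeightOneSpectrum (𝓞 F) → ℂ := fun v =>
    (chi (1 : 𝓞 F) v : ℂ) * ((Pool.Agent.H921R2.TatePole.nm v : ℕ) : ℂ) ^ ((τ : ℂ) * I) with hw
  have hb : ∀ v, ‖((tF X d i N F v : ℝ) : ℂ)‖ ≤ (N : ℝ) := by
    intro v
    rw [Complex.norm_real, Real.norm_eq_abs]
    exact abs_tr_le _ _ _
  have o2 := corr_gen (K := K) (fun v => ((tF X d i N F v : ℝ) : ℂ))
    (fun x => ((tF X d i N K (vx x) : ℝ) : ℂ)) hb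
    (fun p ψ => by rw [tF_ker]) (1 : 𝓞 F) τ w (fun v => rfl)
  have e2 : ∀ ε, (EP (nm F) ε fun v => ((tr ((i : ℝ) / 2) (alp X d i N F) v : ℂ) *
      ((1 : Representation ℂ (GK F) (Fin 1 → ℂ)).character (σ v)⁻¹ * zz τ v)).re) =
      (sysK F).E ε fun v => (((tF X d i N F v : ℝ) : ℂ) * conj (w v)).re := by
    intro ε
    rw [EP_eq]
    congr 1
    funext v
    have e3 : (1 : Representation ℂ (GK F) (Fin 1 → ℂ)).character (σ v)⁻¹ = 1 := by
      have : (1 : Representation ℂ (GK F) (Fin 1 → ℂ)).character (σ v)⁻¹ =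
          LinearMap.trace ℂ (Fin 1 → ℂ) (1 : Module.End ℂ (Fin 1 → ℂ)) := rfl
      rw [this, LinearMap.trace_one]
      simp
    have e4 : conj (w v) = zz τ v := by
      rw [hw]
      simp only
      rw [chi_one, Int.cast_one, one_mul]
      exact (sysK F).conj_cpow_I v τ
    rw [e3, one_mul, e4]
    rfl
  unfold Sy.IsSize
  have o1 : (fun ε : ℝ => ((sysK F).E ε fun v => (((tF X d i N F v : ℝ) : ℂ) * conj (w v)).re) -
      Real.log ‖LX B ((((i : ℝ) / 2 : ℝ) : ℂ) + 1 + τ * I + ε)‖ / Real.log (1 / ε) * lam ε)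
      =o[𝓝[>] 0] LL := by
    have h1 : (fun ε : ℝ => (((sysK F).E ε fun v =>
        (((tF X d i N F v : ℝ) : ℂ) * conj (w v)).re) / lam ε -
        Real.log ‖LX B ((((i : ℝ) / 2 : ℝ) : ℂ) + 1 + τ * I + ε)‖ / Real.log (1 / ε)) * lam ε)
        =o[𝓝[>] 0] LL := by
      have h2 := hsz.2
      simp only [e2] at h2
      have h3 := (isLittleO_one_iff ℝ).2 h2
      have h4 := h3.mul_isBigO Pool.Agent.W353.TP.lam0_isBigO
      simpa using h4
    refine h1.congr' ?_ (EventuallyEq.refl _ _)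
    filter_upwards [lam_tendsto.eventually_gt_atTop 0] with ε h2
    rw [sub_mul, div_mul_cancel₀ _ h2.ne']
  -- the sizes are bounded
  have hbd : (fun ε : ℝ => Real.log ‖LX B ((((i : ℝ) / 2 : ℝ) : ℂ) + 1 + τ * I + ε)‖ /
      Real.log (1 / ε)) =O[𝓝[>] 0] (fun _ => (1 : ℝ)) := by
    have h1 : (fun ε : ℝ => ((sysK F).E ε fun v =>
        (((tF X d i N F v : ℝ) : ℂ) * conj (w v)).re) / lam ε) =O[𝓝[>] 0] (fun _ => (1 : ℝ)) := by
      refine IsBigO.of_bound (2 * N) ?_
      have hEP1 : ∀ᶠ ε : ℝ in 𝓝[>] 0, (EP (nm F) ε fun _ => 1) ≤ 2 * lam ε := by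
        filter_upwards [(EP_one F).eventually_lt_const (by norm_num : (1 : ℝ) < 2),
          lam_tendsto.eventually_gt_atTop 0] with ε h1 h2
        rw [div_lt_iff₀ h2] at h1
        exact h1.le
      filter_upwards [hEP1, lam_tendsto.eventually_gt_atTop 0, self_mem_nhdsWithin]
        with ε h1 h2 h3
      have hε : (0 : ℝ) < ε := h3
      have hwn : ∀ v, ‖w v‖ = 1 := by
        intro v
        rw [hw]
        simp only
        rw [chi_one, Int.cast_one, one_mul]
        exact (sysK F).norm_cpow_I v τ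
      have hb' : ∀ v, |(((tF X d i N F v : ℝ) : ℂ) * conj (w v)).re| ≤ (N : ℝ) * 1 := by
        intro v
        refine (Complex.abs_re_le_norm _).trans ?_
        rw [norm_mul, Complex.norm_conj, hwn]
        exact mul_le_mul_of_nonneg_right (hb v) zero_le_one
      have h4 : |EP (nm F) ε fun v => (((tF X d i N F v : ℝ) : ℂ) * conj (w v)).re| ≤
          (N : ℝ) * EP (nm F) ε fun _ => 1 := by
        rw [← EP_const_mul]
        exact EP_abs_le (ψ := fun _ => (N : ℝ) * 1) (B := N) (fun _ => by simp) hb' hε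
      rw [← EP_eq, Real.norm_eq_abs, abs_div, abs_of_pos h2, norm_one, mul_one,
        div_le_iff₀ h2]
      refine h4.trans ?_
      calc (N : ℝ) * EP (nm F) ε (fun _ => 1) ≤ N * (2 * lam ε) :=
            mul_le_mul_of_nonneg_left h1 (Nat.cast_nonneg _)
        _ = _ := by ring
    have h2 := hsz.2
    simp only [e2] at h2
    have h3 := ((isLittleO_one_iff ℝ).2 h2).isBigO
    have h4 := h1.sub h3
    refine h4.congr_left fun ε => ?_
    ring
  have o3 : (fun ε : ℝ => Real.log ‖LX B ((((i : ℝ) / 2 : ℝ) : ℂ) + 1 + τ * I + ε)‖ /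
      Real.log (1 / ε) * (lam ε - LL ε)) =o[𝓝[>] 0] LL := by
    have := hbd.mul_isLittleO lam0_sub
    simpa using this
  refine ((o2.sub o1).sub o3).congr' ?_ (EventuallyEq.refl _ _)
  filter_upwards with ε
  have e5 : (syX X d i N).corr (F := F) e τ ε =
      (sysH K).E ε fun x : HX K => (((tF X d i N K (vx x) : ℝ) : ℂ) *
        conj (vq K (1 : 𝓞 F) τ x)).re := by
    have e3 : (syX X d i N).corr (F := F) e τ ε =
        ∑ _j ∈ ({()} : Finset Unit), (sysH K).E ε fun x : HX K =>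
          (((tF X d i N K (vx x) : ℝ) : ℂ) *
            conj (vq K (∏ j ∈ (∅ : Finset (Fin 0)), e j) τ x)).re := rfl
    rw [e3, Finset.sum_singleton, Finset.prod_empty]
  rw [e5]
  ring

end

end Pool.Agent.W353.PV
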